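import Pool.Agent.Helper28.NX.BaseAux
import Pool.Agent.Helper7.NX.BaseCells
import Pool.Agent.Helper41.NX.BaseClass
import Pool.Agent.Helper8.NX.BaseLS

/-!
# Project NX: the base (NX-21)
-/

set_option autoImplicit false

open Finset
open scoped BigOperators ComplexConjugate

namespace Pool.Agent.Helper57.NX

noncomputable section

theorem base (hES : ES0) (m : ℕ) (c : Fin (m + 1) → ℝ) (hc : StrictMono c) (hc0 : ∀ i, 0 < c i)
    (hcn : ∀ i (n : ℕ), c i ≠ n)
    (hD : ∀ ε : ℝ, 0 < ε → DP m (fun i => c i.castSucc) ε) :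
    ∃ sb : ℝ, 0 < sb ∧ sb < c (Fin.last m) ∧ ∀ ε : ℝ, 0 < ε → TopP m c sb ε :=
  base_of28 m c hc hc0 (fun s hs0 hs hs1 ε hε => base_cells m c hc hc0 s hs0 hs hs1 hD ε hε)
    (base_class hES m c hc hc0) (base_large hES m c hc hc0 hcn _)
    (fun n ε2 h h1 ε hε hε1 => base_small m c hc hc0 n ε2 h h1 ε hε hε1)

end

end Pool.Agent.Helper57.NX
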