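import Pool.Agent.Helper57.NX.Defs2
import Pool.Agent.Helper5.NX.Basic

/-!
# Project NX: assembly of the base (NX-21), with the four parts as hypotheses
-/

set_option autoImplicit false

open Finset
open scoped BigOperators ComplexConjugate

namespace Pool.Agent.Helper57.NX

noncomputable section

/-- conclusion of `base_cells` -/
def BCells (m : ℕ) (c : Fin (m + 1) → ℝ) (s ε : ℝ) : Prop :=
    ∃ x0 : ℝ, 0 < x0 ∧ ∃ C : ℕ, ∃ σ : ℝ, 0 < σ ∧ ∃ D0 : ℝ,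
    ∀ (S : Sys (m + 1)) (N : ℕ) [NeZero N], D0 ≤ S.D → Good S c N x0 →
    ∀ δ : ℝ, S.D ^ (-σ) ≤ δ → δ ≤ 1 / 2 →
    ∀ X : ℝ, (S.Q : ℝ) ≤ X → S.Q * S.D ^ (s - σ) ≤ X →
    ∀ (f0 : ZMod N → ℂ) (f : Fin (m + 1) → ZMod N → ℂ),
    Adm δ⁻¹ S.Q f0 → (∀ i, Adm δ⁻¹ S.Q (f i)) → Adm δ⁻¹ X (f (Fin.last m)) →
    δ ≤ ‖form S c 1 f0 f‖ →
    ∃ θ : ZMod N → Fin m → ℝ, (∀ x i, |θ x i| ≤ δ⁻¹ ^ C / S.Q) ∧
      ∀ K : ℕ, 1 ≤ K → (K : ℝ) ≤ S.D ^ (1 - ε) →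
        δ ^ C ≤ 𝔼 x, locCorr S c (f (Fin.last m)) θ K x

/-- conclusion of `base_class` -/
def BClass (m : ℕ) (c : Fin (m + 1) → ℝ) (ε2 ε : ℝ) : Prop :=
    ∃ x0 : ℝ, 0 < x0 ∧ ∃ σ : ℝ, 0 < σ ∧ ∃ D0 : ℝ,
    ∀ (S : Sys (m + 1)) (N : ℕ) [NeZero N], D0 ≤ S.D → Good S c N x0 →
    ∀ X : ℝ, S.Q * S.D ^ (c (Fin.last m) - 1 / 4) ≤ X →
    ∀ f : ZMod N → ℂ, Adm (S.D ^ σ) X f →
    ∀ (θ : ZMod N → Fin m → ℝ) (lam : ℝ), S.D ^ ε2 ≤ lam → lam ^ (7 / 6 : ℝ) ≤ S.D ^ (1 / 3 : ℝ) →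
    ∀ E : Finset (ZMod N), (∀ x ∈ E, (∀ i, |θ x i * S.P i.castSucc| ≤ lam ^ (7 / 6 : ℝ)) ∧
      ∃ i, lam ≤ |θ x i * S.P i.castSucc|) →
    ∀ K : ℕ, S.D ^ (1 - ε) ≤ (K : ℝ) + 1 → (K : ℝ) ≤ S.D ^ (1 - ε) →
    𝔼 x, (if x ∈ E then locCorr S c f θ K x else 0) ≤ S.D ^ (-σ)

/-- conclusion of `base_large` -/
def BLarge (m : ℕ) (c : Fin (m + 1) → ℝ) (a εb ε : ℝ) : Prop :=
    ∃ x0 : ℝ, 0 < x0 ∧ ∃ σ : ℝ, 0 < σ ∧ ∃ D0 : ℝ,
    ∀ (S : Sys (m + 1)) (N : ℕ) [NeZero N], D0 ≤ S.D → Good S c N x0 →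
    ∀ X : ℝ, S.Q * S.D ^ (c (Fin.last m) - 2 * εb) ≤ X →
    ∀ f : ZMod N → ℂ, Adm (S.D ^ σ) X f →
    ∀ θ : ZMod N → Fin m → ℝ,
    ∀ E : Finset (ZMod N), (∀ x ∈ E, (∀ i, |θ x i * S.P i.castSucc| ≤ S.D ^ a) ∧
      ∃ i, S.D ^ (1 / 4 : ℝ) ≤ |θ x i * S.P i.castSucc|) →
    ∀ K : ℕ, S.D ^ (1 - ε) ≤ (K : ℝ) + 1 → (K : ℝ) ≤ S.D ^ (1 - ε) →
    𝔼 x, (if x ∈ E then locCorr S c f θ K x else 0) ≤ S.D ^ (-σ)

/-- conclusion of `base_small` -/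
def BSmall (m : ℕ) (c : Fin (m + 1) → ℝ) (n : ℕ) (ε2 ε : ℝ) : Prop :=
    ∃ x0 : ℝ, 0 < x0 ∧ ∃ C : ℕ, ∃ σ : ℝ, 0 < σ ∧ ∃ D0 : ℝ,
    ∀ (S : Sys (m + 1)) (N : ℕ) [NeZero N], D0 ≤ S.D → Good S c N x0 →
    ∀ δ : ℝ, S.D ^ (-σ) ≤ δ → δ ≤ 1 / 2 →
    ∀ X : ℝ, S.Q * S.D ^ (c (Fin.last m) - 1 / 4) ≤ X →
    ∀ f : ZMod N → ℂ, Adm δ⁻¹ X f →
    ∀ θ : ZMod N → Fin m → ℝ,
    ∀ E : Finset (ZMod N), (∀ x ∈ E, ∀ i, |θ x i * S.P i.castSucc| ≤ S.D ^ ε2) →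
    ∀ K : ℕ, S.D ^ (1 - ε) ≤ (K : ℝ) + 1 → (K : ℝ) ≤ S.D ^ (1 - ε) →
    δ ^ n ≤ 𝔼 x, (if x ∈ E then locCorr S c f θ K x else 0) →
    ∀ L : ℕ, 1 ≤ L → (L : ℝ) ≤ S.P (Fin.last m) * S.D ^ (-(4 * ε2)) → δ ^ C ≤ nrm (A L f)

/-- more slack -/
theorem good_mono28 {m : ℕ} {S : Sys m} {c : Fin m → ℝ} {N : ℕ} {x y : ℝ} (h : Good S c N x)
    (hxy : x ≤ y) (hD : 1 ≤ S.D) : Good S c N y where
  ρ0 := h.ρ0
  ρ1 := h.ρ1
  Q1 := h.Q1
  Q2 := h.Q2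
  P1 i := le_trans (mul_le_mul_of_nonneg_left
    (Real.rpow_le_rpow_of_exponent_le hD (by linarith)) (Nat.cast_nonneg _)) (h.P1 i)
  P2 i := le_trans (h.P2 i) (mul_le_mul_of_nonneg_left
    (Real.rpow_le_rpow_of_exponent_le hD (by linarith)) (Nat.cast_nonneg _))
  N1 i := le_trans (h.N1 i) (mul_le_mul_of_nonneg_left
    (Real.rpow_le_rpow_of_exponent_le hD hxy) (Nat.cast_nonneg _))
  N2 := h.N2
  u1 := h.u1
  u2 := h.u2
  T1 := le_trans (Real.rpow_le_rpow_of_exponent_le hD (by linarith)) h.T1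

theorem locCorr_nonneg28 {m N : ℕ} [NeZero N] (S : Sys (m + 1)) (c : Fin (m + 1) → ℝ)
    (f : ZMod N → ℂ) (θ : ZMod N → Fin m → ℝ) (K : ℕ) (x : ZMod N) : 0 ≤ locCorr S c f θ K x :=
  expect_nonneg fun _ _ => norm_nonneg _

/-- the covering of a positive number by the classes -/
theorem cover28 {D ε2 : ℝ} (hD : 1 ≤ D) {J : ℕ} (hJ : 2 / 7 < ε2 * (7 / 6 : ℝ) ^ (J + 1)) {M : ℝ}
    (h0 : D ^ ε2 ≤ M) (h1 : M < D ^ (1 / 4 : ℝ)) :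
    ∃ j ≤ J, D ^ (ε2 * (7 / 6 : ℝ) ^ j) ≤ M ∧ M ≤ (D ^ (ε2 * (7 / 6 : ℝ) ^ j)) ^ (7 / 6 : ℝ) := by
  classical
  have hstep : ∀ j : ℕ, (D ^ (ε2 * (7 / 6 : ℝ) ^ j)) ^ (7 / 6 : ℝ) =
      D ^ (ε2 * (7 / 6 : ℝ) ^ (j + 1)) := by
    intro j
    rw [← Real.rpow_mul (by linarith), pow_succ, mul_assoc]
  have hz : D ^ (ε2 * (7 / 6 : ℝ) ^ 0) ≤ M := by rwa [pow_zero, mul_one]
  refine ⟨Nat.findGreatest (fun j => D ^ (ε2 * (7 / 6 : ℝ) ^ j) ≤ M) J, Nat.findGreatest_le J,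
    Nat.findGreatest_spec (P := fun j => D ^ (ε2 * (7 / 6 : ℝ) ^ j) ≤ M) (Nat.zero_le J) hz, ?_⟩
  rw [hstep]
  rcases Nat.lt_or_ge (Nat.findGreatest (fun j => D ^ (ε2 * (7 / 6 : ℝ) ^ j) ≤ M) J) J with h | h
  · have := Nat.findGreatest_is_greatest (P := fun j => D ^ (ε2 * (7 / 6 : ℝ) ^ j) ≤ M)
      (Nat.lt_succ_self _) h
    exact (not_le.1 this).le
  · have h2 : Nat.findGreatest (fun j => D ^ (ε2 * (7 / 6 : ℝ) ^ j) ≤ M) J = J :=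
      le_antisymm (Nat.findGreatest_le J) h
    rw [h2]
    refine h1.le.trans (Real.rpow_le_rpow_of_exponent_le hD (by linarith))

theorem exists_J28 {ε2 : ℝ} (h0 : 0 < ε2) (h1 : ε2 ≤ 1 / 16) :
    ∃ J : ℕ, 2 / 7 < ε2 * (7 / 6 : ℝ) ^ (J + 1) ∧ ∀ j ≤ J, ε2 * (7 / 6 : ℝ) ^ j ≤ 2 / 7 := by
  classical
  have hex : ∃ n : ℕ, 2 / 7 < ε2 * (7 / 6 : ℝ) ^ n := by
    obtain ⟨n, hn⟩ := pow_unbounded_of_one_lt (2 / 7 / ε2) (show (1 : ℝ) < 7 / 6 by norm_num)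
    refine ⟨n, ?_⟩
    rw [div_lt_iff₀ h0] at hn
    linarith
  have h2 := Nat.find_spec hex
  have h3 : Nat.find hex ≠ 0 := by
    intro h
    rw [h, pow_zero, mul_one] at h2
    linarith
  obtain ⟨J, hJ⟩ := Nat.exists_eq_succ_of_ne_zero h3
  refine ⟨J, ?_, fun j hj => ?_⟩
  · rw [← Nat.succ_eq_add_one, ← hJ]
    exact h2
  · exact not_lt.1 (Nat.find_min hex (by omega))

theorem base_of28 (m : ℕ) (c : Fin (m + 1) → ℝ) (hc : StrictMono c) (hc0 : ∀ i, 0 < c i)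
    (h1 : ∀ s, 0 < s → s < c (Fin.last m) → (∀ i : Fin m, c i.castSucc < s) →
      ∀ ε : ℝ, 0 < ε → BCells m c s ε)
    (h2 : ∀ ε2 : ℝ, 0 < ε2 → ∃ ε1 : ℝ, 0 < ε1 ∧ ∀ ε : ℝ, 0 < ε → ε ≤ ε1 → BClass m c ε2 ε)
    (h3 : ∃ εb : ℝ, 0 < εb ∧ ∀ ε : ℝ, 0 < ε → ε ≤ εb → BLarge m c (c (Fin.last m) + 3) εb ε)
    (h4 : ∀ (n : ℕ) (ε2 : ℝ), 0 < ε2 → ε2 ≤ 1 / 16 → ∀ ε : ℝ, 0 < ε → ε ≤ ε2 →
      BSmall m c n ε2 ε) :
    ∃ sb : ℝ, 0 < sb ∧ sb < c (Fin.last m) ∧ ∀ ε : ℝ, 0 < ε → TopP m c sb ε := by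
  classical
  obtain ⟨εb, hεb, hL⟩ := h3
  have hcm := hc0 (Fin.last m)
  obtain ⟨e1, he1, hgap⟩ : ∃ e1 : ℝ, 0 < e1 ∧ ∀ i : Fin m, c i.castSucc + e1 < c (Fin.last m) := by
    rcases Nat.eq_zero_or_pos m with rfl | hm
    · exact ⟨1, one_pos, fun i => i.elim0⟩
    · obtain ⟨m', rfl⟩ := Nat.exists_eq_succ_of_ne_zero hm.ne'
      have h5 : c (Fin.last m').castSucc < c (Fin.last (m' + 1)) :=
        hc (Fin.castSucc_lt_last _)
      refine ⟨(c (Fin.last (m' + 1)) - c (Fin.last m').castSucc) / 2, by linarith, fun i => ?_⟩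
      have h6 : c i.castSucc ≤ c (Fin.last m').castSucc :=
        hc.monotone (Fin.castSucc_le_castSucc_iff.2 (Fin.le_last i))
      change c i.castSucc + (c (Fin.last (m' + 1)) - c (Fin.last m').castSucc) / 2 <
        c (Fin.last (m' + 1))
      linarith
  obtain ⟨e0, he0, he0b, he08, he0c, he01⟩ : ∃ e0 : ℝ, 0 < e0 ∧ e0 ≤ εb ∧ e0 ≤ 1 / 8 ∧
      e0 ≤ c (Fin.last m) / 2 ∧ e0 ≤ e1 :=
    ⟨min (min εb (1 / 8)) (min (c (Fin.last m) / 2) e1), by positivity,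
      (min_le_left _ _).trans (min_le_left _ _), (min_le_left _ _).trans (min_le_right _ _),
      (min_le_right _ _).trans (min_le_left _ _), (min_le_right _ _).trans (min_le_right _ _)⟩
  refine ⟨c (Fin.last m) - e0, by linarith, by linarith, ?_⟩
  intro ε hε
  obtain ⟨ε2, hε2, hε2a, hε2b⟩ : ∃ ε2 : ℝ, 0 < ε2 ∧ ε2 ≤ ε / 8 ∧ ε2 ≤ 1 / 16 :=
    ⟨min (ε / 8) (1 / 16), by positivity, min_le_left _ _, min_le_right _ _⟩
  obtain ⟨ε1, hε1, hC⟩ := h2 ε2 hε2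
  obtain ⟨εK, hεK, hεK1, hεK2, hεKb⟩ : ∃ εK : ℝ, 0 < εK ∧ εK ≤ ε1 ∧ εK ≤ ε2 ∧ εK ≤ εb :=
    ⟨min ε1 (min ε2 εb), by positivity, min_le_left _ _,
      (min_le_right _ _).trans (min_le_left _ _), (min_le_right _ _).trans (min_le_right _ _)⟩
  obtain ⟨xc, hxc, Cc, σc, hσc, Dc, hcells⟩ := h1 (c (Fin.last m) - e0) (by linarith)
    (by linarith) (fun i => by linarith [hgap i]) εK hεK
  obtain ⟨xl, hxl, σl, hσl, Dl, hlarge⟩ := hL εK hεK hεKb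
  obtain ⟨xk, hxk, σk, hσk, Dk, hclass⟩ := hC εK hεK hεK1
  obtain ⟨xs, hxs, Cs, σs, hσs, Ds, hsmall⟩ := h4 (Cc + 1) ε2 hε2 hε2b εK hεK hεK2
  obtain ⟨J, hJ1, hJ2⟩ := exists_J28 hε2 hε2b
  obtain ⟨x0, hx0, hx0c, hx0l, hx0k, hx0s, hx01⟩ : ∃ x0 : ℝ, 0 < x0 ∧ x0 ≤ xc ∧ x0 ≤ xl ∧
      x0 ≤ xk ∧ x0 ≤ xs ∧ x0 ≤ 1 :=
    ⟨min (min xc xl) (min (min xk xs) 1), by positivity,
      (min_le_left _ _).trans (min_le_left _ _), (min_le_left _ _).trans (min_le_right _ _),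
      (min_le_right _ _).trans ((min_le_left _ _).trans (min_le_left _ _)),
      (min_le_right _ _).trans ((min_le_left _ _).trans (min_le_right _ _)),
      (min_le_right _ _).trans (min_le_right _ _)⟩
  obtain ⟨σ', hσ', hσ'l, hσ'k⟩ : ∃ σ' : ℝ, 0 < σ' ∧ σ' ≤ σl ∧ σ' ≤ σk :=
    ⟨min σl σk, by positivity, min_le_left _ _, min_le_right _ _⟩
  obtain ⟨σ, hσ, hσ1, hσ2, hσ3, hσ4, hσ5, hσ6, hσ7, hσ8⟩ : ∃ σ : ℝ, 0 < σ ∧ σ ≤ σc ∧ σ ≤ σk ∧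
      σ ≤ σl ∧ σ ≤ σs ∧ σ ≤ 1 / 8 ∧ σ ≤ εb ∧ σ * Cc ≤ σ' / 2 ∧ σ * Cc ≤ 1 := by
    have hCc : (0 : ℝ) < (Cc : ℝ) + 1 := by positivity
    refine ⟨min (min (min σc σk) (min σl σs)) (min (min (1 / 8) εb)
      (min (σ' / 2 / (Cc + 1)) (1 / (Cc + 1)))), by positivity, ?_, ?_, ?_, ?_, ?_, ?_, ?_, ?_⟩
    · exact (min_le_left _ _).trans ((min_le_left _ _).trans (min_le_left _ _))
    · exact (min_le_left _ _).trans ((min_le_left _ _).trans (min_le_right _ _))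
    · exact (min_le_left _ _).trans ((min_le_right _ _).trans (min_le_left _ _))
    · exact (min_le_left _ _).trans ((min_le_right _ _).trans (min_le_right _ _))
    · exact (min_le_right _ _).trans ((min_le_left _ _).trans (min_le_left _ _))
    · exact (min_le_right _ _).trans ((min_le_left _ _).trans (min_le_right _ _))
    · refine le_trans (mul_le_mul_of_nonneg_right ((min_le_right _ _).trans
        ((min_le_right _ _).trans (min_le_left _ _))) (Nat.cast_nonneg _)) ?_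
      rw [div_mul_eq_mul_div, div_le_iff₀ hCc]
      nlinarith
    · refine le_trans (mul_le_mul_of_nonneg_right ((min_le_right _ _).trans
        ((min_le_right _ _).trans (min_le_right _ _))) (Nat.cast_nonneg _)) ?_
      rw [div_mul_eq_mul_div, div_le_iff₀ hCc]
      linarith
  obtain ⟨D1, hD1⟩ : ∃ D1 : ℝ, ∀ D : ℝ, D1 ≤ D → ((J : ℝ) + 2) * D ^ (-(σ' / 2)) ≤ 1 / 2 := by
    have h5 := (tendsto_rpow_neg_atTop (show (0 : ℝ) < σ' / 2 by positivity)).const_mul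
      ((J : ℝ) + 2)
    rw [mul_zero] at h5
    have h6 := h5.eventually (eventually_le_nhds (show (0 : ℝ) < 1 / 2 by norm_num))
    obtain ⟨D1, h7⟩ := Filter.eventually_atTop.1 h6
    exact ⟨D1, h7⟩
  refine ⟨x0, hx0, Cs, σ, hσ, max (max (max Dc Dl) (max Dk Ds)) (max 2 D1), ?_⟩
  intro S N _ hSD hG δ hδ hδ2 X hX1 hX2 f0 f hf0 hf hfl hform L hL1 hL2
  have hDc : Dc ≤ S.D := le_trans ((le_max_left _ _).trans ((le_max_left _ _).trans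
    (le_max_left _ _))) hSD
  have hDl : Dl ≤ S.D := le_trans ((le_max_right _ _).trans ((le_max_left _ _).trans
    (le_max_left _ _))) hSD
  have hDk : Dk ≤ S.D := le_trans ((le_max_left _ _).trans ((le_max_right _ _).trans
    (le_max_left _ _))) hSD
  have hDs : Ds ≤ S.D := le_trans ((le_max_right _ _).trans ((le_max_right _ _).trans
    (le_max_left _ _))) hSD
  have hD2 : 2 ≤ S.D := le_trans ((le_max_left _ _).trans (le_max_right _ _)) hSD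
  have hDD : D1 ≤ S.D := le_trans ((le_max_right _ _).trans (le_max_right _ _)) hSD
  have hDone : 1 ≤ S.D := by linarith
  have hDpos : 0 < S.D := by linarith
  have hδpos : 0 < δ := lt_of_lt_of_le (Real.rpow_pos_of_pos hDpos _) hδ
  have hmono : ∀ a b : ℝ, a ≤ b → S.D ^ a ≤ S.D ^ b := fun a b h =>
    Real.rpow_le_rpow_of_exponent_le hDone h
  have hδinv : δ⁻¹ ≤ S.D ^ σ := by
    have h5 := inv_anti₀ (Real.rpow_pos_of_pos hDpos _) hδ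
    rwa [Real.rpow_neg hDpos.le, inv_inv] at h5
  have hQpos : (0 : ℝ) < S.Q := lt_of_lt_of_le (Real.rpow_pos_of_pos hDpos _) hG.Q1
  have hXpos : 0 < X := lt_of_lt_of_le hQpos hX1
  -- the phases
  obtain ⟨θ, hθ, hcorr⟩ := hcells S N hDc (good_mono28 hG hx0c hDone) δ
    (le_trans (hmono _ _ (by linarith)) hδ) hδ2 X hX1
    (le_trans (mul_le_mul_of_nonneg_left (hmono _ _ (by linarith)) hQpos.le) hX2) f0 f hf0 hf hfl
    hform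
  have hKr : (1 : ℝ) ≤ S.D ^ (1 - εK) := Real.one_le_rpow hDone (by linarith)
  have hKK : (1 : ℕ) ≤ ⌊S.D ^ (1 - εK)⌋₊ := Nat.le_floor (by exact_mod_cast hKr)
  have hK1 : ((⌊S.D ^ (1 - εK)⌋₊ : ℕ) : ℝ) ≤ S.D ^ (1 - εK) := Nat.floor_le (by linarith)
  have hK2 : S.D ^ (1 - εK) ≤ ((⌊S.D ^ (1 - εK)⌋₊ : ℕ) : ℝ) + 1 := (Nat.lt_floor_add_one _).le
  generalize ⌊S.D ^ (1 - εK)⌋₊ = K at hKK hK1 hK2
  have hcorr' := hcorr K hKK hK1
  -- size of the frequencies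
  have hv : ∀ x i, |θ x i * S.P i.castSucc| ≤ S.D ^ (c (Fin.last m) + 3) := by
    intro x i
    have hP0 : 0 ≤ S.P i.castSucc := le_trans (by positivity) (hG.P1 i.castSucc)
    have hPow : δ⁻¹ ^ Cc ≤ S.D ^ (1 : ℝ) := by
      calc δ⁻¹ ^ Cc ≤ (S.D ^ σ) ^ Cc := pow_le_pow_left₀ (by positivity) hδinv _
        _ = S.D ^ (σ * Cc) := by rw [← Real.rpow_natCast, ← Real.rpow_mul hDpos.le]
        _ ≤ S.D ^ (1 : ℝ) := hmono _ _ hσ8
    have hci : c i.castSucc ≤ c (Fin.last m) := hc.monotone (Fin.le_last _)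
    rw [abs_mul, abs_of_nonneg hP0]
    calc |θ x i| * S.P i.castSucc ≤ (δ⁻¹ ^ Cc / S.Q) * (S.Q * S.D ^ (c i.castSucc + x0)) :=
          mul_le_mul (hθ x i) (hG.P2 i.castSucc) hP0 (by positivity)
      _ = δ⁻¹ ^ Cc * S.D ^ (c i.castSucc + x0) := by
          field_simp
      _ ≤ S.D ^ (1 : ℝ) * S.D ^ (c i.castSucc + x0) :=
          mul_le_mul_of_nonneg_right hPow (by positivity)
      _ = S.D ^ (1 + (c i.castSucc + x0)) := (Real.rpow_add hDpos _ _).symm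
      _ ≤ _ := hmono _ _ (by linarith)
  -- the parts
  set El : Finset (ZMod N) := univ.filter fun x => ∃ i, S.D ^ (1 / 4 : ℝ) ≤
    |θ x i * S.P i.castSucc| with hEl
  set Es : Finset (ZMod N) := univ.filter fun x => ∀ i, |θ x i * S.P i.castSucc| ≤ S.D ^ ε2
    with hEs
  set Ek : ℕ → Finset (ZMod N) := fun j => univ.filter fun x =>
    (∀ i, |θ x i * S.P i.castSucc| ≤ (S.D ^ (ε2 * (7 / 6 : ℝ) ^ j)) ^ (7 / 6 : ℝ)) ∧
      ∃ i, S.D ^ (ε2 * (7 / 6 : ℝ) ^ j) ≤ |θ x i * S.P i.castSucc| with hEk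
  have hXq : S.Q * S.D ^ (c (Fin.last m) - 1 / 4) ≤ X :=
    le_trans (mul_le_mul_of_nonneg_left (hmono _ _ (by linarith)) hQpos.le) hX2
  have pl : 𝔼 x, (if x ∈ El then locCorr S c (f (Fin.last m)) θ K x else 0) ≤ S.D ^ (-σl) := by
    refine hlarge S N hDl (good_mono28 hG hx0l hDone) X
      (le_trans (mul_le_mul_of_nonneg_left (hmono _ _ (by linarith)) hQpos.le) hX2) _
      (hfl.mono (hδinv.trans (hmono _ _ hσ3)) hXpos le_rfl) θ El (fun x hx => ⟨hv x, ?_⟩) K hK2 hK1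
    exact (Finset.mem_filter.1 hx).2
  have pk : ∀ j ∈ range (J + 1),
      𝔼 x, (if x ∈ Ek j then locCorr S c (f (Fin.last m)) θ K x else 0) ≤ S.D ^ (-σk) := by
    intro j hj
    rw [Finset.mem_range] at hj
    refine hclass S N hDk (good_mono28 hG hx0k hDone) X hXq _
      (hfl.mono (hδinv.trans (hmono _ _ hσ2)) hXpos le_rfl) θ (S.D ^ (ε2 * (7 / 6 : ℝ) ^ j))
      (hmono _ _ ?_) ?_ (Ek j) (fun x hx => (Finset.mem_filter.1 hx).2) K hK2 hK1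
    · have : (1 : ℝ) ≤ (7 / 6 : ℝ) ^ j := one_le_pow₀ (by norm_num)
      nlinarith
    · rw [← Real.rpow_mul hDpos.le]
      refine hmono _ _ ?_
      have := hJ2 j (by omega)
      linarith
  -- the sum
  have hcover : ∀ x, locCorr S c (f (Fin.last m)) θ K x ≤
      (if x ∈ El then locCorr S c (f (Fin.last m)) θ K x else 0) +
      ∑ j ∈ range (J + 1), (if x ∈ Ek j then locCorr S c (f (Fin.last m)) θ K x else 0) +
      (if x ∈ Es then locCorr S c (f (Fin.last m)) θ K x else 0) := by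
    intro x
    have hn := locCorr_nonneg28 S c (f (Fin.last m)) θ K x
    have n1 : 0 ≤ (if x ∈ El then locCorr S c (f (Fin.last m)) θ K x else 0) := by
      split_ifs <;> [exact hn; exact le_rfl]
    have n2 : ∀ j, 0 ≤ (if x ∈ Ek j then locCorr S c (f (Fin.last m)) θ K x else 0) := fun j => by
      split_ifs <;> [exact hn; exact le_rfl]
    have n2' : 0 ≤ ∑ j ∈ range (J + 1),
        (if x ∈ Ek j then locCorr S c (f (Fin.last m)) θ K x else 0) :=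
      Finset.sum_nonneg fun j _ => n2 j
    have n3 : 0 ≤ (if x ∈ Es then locCorr S c (f (Fin.last m)) θ K x else 0) := by
      split_ifs <;> [exact hn; exact le_rfl]
    by_cases hxl : x ∈ El
    · rw [if_pos hxl] at n1 ⊢
      linarith
    by_cases hxs' : x ∈ Es
    · rw [if_pos hxs'] at n3 ⊢
      linarith
    rw [hEl, Finset.mem_filter] at hxl
    rw [hEs, Finset.mem_filter] at hxs'
    push Not at hxl hxs'
    have hxl' := hxl (Finset.mem_univ _)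
    obtain ⟨i0, hi0⟩ := hxs' (Finset.mem_univ _)
    obtain ⟨i1, -, hi1⟩ := Finset.exists_max_image (univ : Finset (Fin m))
      (fun i => |θ x i * S.P i.castSucc|) ⟨i0, Finset.mem_univ _⟩
    obtain ⟨j, hjJ, hj1, hj2⟩ := cover28 hDone hJ1
      (le_trans hi0.le (hi1 i0 (Finset.mem_univ _))) (hxl' i1)
    have hxj : x ∈ Ek j := by
      rw [hEk, Finset.mem_filter]
      exact ⟨Finset.mem_univ _, fun i => (hi1 i (Finset.mem_univ _)).trans hj2, i1, hj1⟩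
    have h5 := Finset.single_le_sum (f := fun j => if x ∈ Ek j then
      locCorr S c (f (Fin.last m)) θ K x else 0) (fun j _ => n2 j)
      (Finset.mem_range.2 (show j < J + 1 by omega))
    simp only [if_pos hxj] at h5
    linarith
  have hsum : 𝔼 x, locCorr S c (f (Fin.last m)) θ K x ≤
      𝔼 x, (if x ∈ El then locCorr S c (f (Fin.last m)) θ K x else 0) +
      ∑ j ∈ range (J + 1), 𝔼 x, (if x ∈ Ek j then locCorr S c (f (Fin.last m)) θ K x else 0) +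
      𝔼 x, (if x ∈ Es then locCorr S c (f (Fin.last m)) θ K x else 0) := by
    refine le_trans (Finset.expect_le_expect fun x _ => hcover x) ?_
    rw [Finset.expect_add_distrib, Finset.expect_add_distrib, Finset.expect_sum_comm]
  have hk' : ∑ j ∈ range (J + 1), 𝔼 x, (if x ∈ Ek j then locCorr S c (f (Fin.last m)) θ K x
      else 0) ≤ ((J : ℝ) + 1) * S.D ^ (-σk) := by
    refine le_trans (Finset.sum_le_sum pk) ?_
    rw [Finset.sum_const, Finset.card_range, nsmul_eq_mul]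
    push_cast
    exact le_rfl
  have hl2 : S.D ^ (-σl) ≤ S.D ^ (-σ') := hmono _ _ (by linarith)
  have hk2 : S.D ^ (-σk) ≤ S.D ^ (-σ') := hmono _ _ (by linarith)
  have hhalf : ((J : ℝ) + 2) * S.D ^ (-σ') ≤ δ ^ Cc / 2 := by
    have h5 : S.D ^ (-(σ' / 2)) ≤ δ ^ Cc := by
      calc S.D ^ (-(σ' / 2)) ≤ S.D ^ (-σ * Cc) := hmono _ _ (by linarith)
        _ = (S.D ^ (-σ)) ^ Cc := by rw [Real.rpow_mul hDpos.le, Real.rpow_natCast]
        _ ≤ δ ^ Cc := pow_le_pow_left₀ (by positivity) hδ _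
    have h6 : S.D ^ (-σ') = S.D ^ (-(σ' / 2)) * S.D ^ (-(σ' / 2)) := by
      rw [← Real.rpow_add hDpos]
      congr 1
      ring
    have h7 := hD1 S.D hDD
    have h8 : 0 < S.D ^ (-(σ' / 2)) := Real.rpow_pos_of_pos hDpos _
    rw [h6]
    nlinarith
  have hsmallpart : δ ^ (Cc + 1) ≤
      𝔼 x, (if x ∈ Es then locCorr S c (f (Fin.last m)) θ K x else 0) := by
    have h5 : δ ^ (Cc + 1) ≤ δ ^ Cc / 2 := by
      rw [pow_succ]
      have : 0 < δ ^ Cc := by positivity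
      nlinarith
    have h6 : ((J : ℝ) + 1) * S.D ^ (-σk) ≤ ((J : ℝ) + 1) * S.D ^ (-σ') :=
      mul_le_mul_of_nonneg_left hk2 (by positivity)
    linarith
  refine hsmall S N hDs (good_mono28 hG hx0s hDone) δ (le_trans (hmono _ _ (by linarith)) hδ) hδ2
    X hXq _ hfl θ Es (fun x hx => (Finset.mem_filter.1 hx).2) K hK2 hK1 hsmallpart L hL1
    (hL2.trans ?_)
  have hP0 : 0 ≤ S.P (Fin.last m) := le_trans (by positivity) (hG.P1 (Fin.last m))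
  exact mul_le_mul_of_nonneg_left (hmono _ _ (by linarith)) hP0

end

end Pool.Agent.Helper57.NX
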